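import Mathlib

set_option autoImplicit false

namespace Pool.Agent.Results.MP_37b92f_co.Yes

open Finset Filter Topology SimpleGraph

/-- `φ` is an order-preserving embedding of `F` into the subgraph `G'`. -/
def IsEmb {a N : ℕ} (F : SimpleGraph (Fin a)) {G : SimpleGraph (Fin N)} (G' : G.Subgraph)
    (φ : Fin a → Fin N) : Prop :=
  StrictMono φ ∧ (∀ u, φ u ∈ G'.verts) ∧ ∀ u v, F.Adj u v → G'.Adj (φ u) (φ v)

/-- `ρ_<(F, G)`. -/
noncomputable def rho {a N : ℕ} (F : SimpleGraph (Fin a)) (G : SimpleGraph (Fin N)) : ℝ :=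
  sSup {r | ∃ G' : G.Subgraph, (¬ ∃ φ, IsEmb F G' φ) ∧
    r = (G'.edgeSet.ncard : ℝ) / G.edgeSet.ncard}

/-- `ρ_<(F)`. -/
noncomputable def rhoInf {a : ℕ} (F : SimpleGraph (Fin a)) : ℝ :=
  sInf {r | ∃ (N : ℕ) (G : SimpleGraph (Fin N)), G.edgeSet.Nonempty ∧ r = rho F G}

/-- `w` is the law of a random embedding of `H` into `G`. -/
def IsLaw {a N : ℕ} (H : SimpleGraph (Fin a)) (G : SimpleGraph (Fin N))
    (w : (Fin a → Fin N) → ℝ) : Prop :=
  (∀ φ, 0 ≤ w φ) ∧ ∑ φ, w φ = 1 ∧ ∀ φ, w φ ≠ 0 → IsEmb H (⊤ : G.Subgraph) φ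

open Classical in
/-- The probability that `e` is the image of an edge of `H`. -/
noncomputable def hit {a N : ℕ} (H : SimpleGraph (Fin a)) (w : (Fin a → Fin N) → ℝ)
    (e : Sym2 (Fin N)) : ℝ :=
  ∑ φ, if e ∈ Sym2.map φ '' H.edgeSet then w φ else 0

theorem rho_nonneg {a N : ℕ} (F : SimpleGraph (Fin a)) (G : SimpleGraph (Fin N)) : 0 ≤ rho F G :=
  Real.sSup_nonneg (by rintro _ ⟨G', -, rfl⟩; positivity)

theorem inf_lt (m : ℕ) : rhoInf (⊤ : SimpleGraph (Fin (m + 2))) < 1 := by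
  have hne : (⊤ : SimpleGraph (Fin (m + 2))).edgeSet.Nonempty := ⟨s(0, 1), by simp⟩
  have h0 : (1 : ℝ) ≤ (⊤ : SimpleGraph (Fin (m + 2))).edgeSet.ncard := by
    exact_mod_cast (Set.ncard_pos (Set.toFinite _)).2 hne
  have h1 : rhoInf (⊤ : SimpleGraph (Fin (m + 2))) ≤ rho ⊤ (⊤ : SimpleGraph (Fin (m + 2))) :=
    csInf_le ⟨0, by rintro _ ⟨_, G, -, rfl⟩; exact rho_nonneg _ _⟩ ⟨_, ⊤, hne, rfl⟩
  refine h1.trans_lt (lt_of_le_of_lt (Real.sSup_le ?_ (div_nonneg (sub_nonneg.2 h0) (by linarith)))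
      ((div_lt_one (by linarith)).2 (sub_one_lt _)))
  rintro _ ⟨G', h, rfl⟩
  gcongr
  have : G'.edgeSet.ncard < (⊤ : SimpleGraph (Fin (m + 2))).edgeSet.ncard := by
    refine Set.ncard_lt_ncard ⟨G'.edgeSet_subset, fun hs => h ⟨id, strictMono_id, fun u => ?_,
      fun u v huv => hs (show s(u, v) ∈ _ from huv)⟩⟩ (Set.toFinite _)
    obtain ⟨v, hv⟩ := exists_ne u
    exact G'.edge_vert (hs (show s(u, v) ∈ _ from hv.symm))
  have : (G'.edgeSet.ncard : ℝ) + 1 ≤ (⊤ : SimpleGraph (Fin (m + 2))).edgeSet.ncard := by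
    exact_mod_cast this
  linarith

theorem emb {a N : ℕ} (F : SimpleGraph (Fin a)) (G : SimpleGraph (Fin N))
    (hG : G.edgeSet.Nonempty) (h : rho F G < 1) : ∃ φ, IsEmb F (⊤ : G.Subgraph) φ := by
  by_contra hc
  have h0 : (0 : ℝ) < G.edgeSet.ncard := by
    exact_mod_cast (Set.ncard_pos (Set.toFinite _)).2 hG
  refine h.not_ge (le_csSup ⟨1, ?_⟩ ⟨⊤, hc, by simp [div_self h0.ne']⟩)
  rintro _ ⟨G', -, rfl⟩
  rw [div_le_one h0]
  exact_mod_cast Set.ncard_le_ncard G'.edgeSet_subset (Set.toFinite _)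

theorem law {a N : ℕ} (H : SimpleGraph (Fin a)) (G : SimpleGraph (Fin N)) (t : ℕ) (ht : t ≠ 0)
    (ψ : Fin (t * a + t + 2) → Fin N) (hψ : IsEmb ⊤ (⊤ : G.Subgraph) ψ) :
    t ≤ G.edgeSet.ncard ∧ ∃ w, IsLaw H G w ∧ ∀ e, 0 ≤ hit H w e ∧ hit H w e ≤ 1 / t := by
  classical
  have ht' : (0 : ℝ) < t := by positivity
  constructor
  · have := Nat.card_le_card_of_injective (fun i : Fin (t * a + t + 1) =>
      (⟨s(ψ 0, ψ i.succ), hψ.2.2 _ _ (Fin.succ_ne_zero i).symm⟩ : G.edgeSet)) fun i j h => by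
        have h1 := Sym2.congr_right.1 (congrArg Subtype.val h)
        exact Fin.succ_injective _ (hψ.1.injective h1)
    rw [Nat.card_coe_set_eq] at this
    simp at this
    omega
  have hb : ∀ (s : Fin t) (u : Fin a), s * a + u < t * a + t + 2 := fun s u => by
    have := Nat.mul_le_mul_right a (Nat.succ_le_of_lt s.2)
    have := u.2
    rw [Nat.succ_mul] at *
    omega
  let φ : Fin t → Fin a → Fin N := fun s u => ψ ⟨s * a + u, hb s u⟩
  have hφ : ∀ s s' u u', φ s u = φ s' u' → s = s' := fun s s' u u' h => by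
    have h1 : (s : ℕ) * a + u = s' * a + u' := congrArg Fin.val (hψ.1.injective h)
    have h2 := congrArg (· / a) h1
    have ha : 0 < a := u.pos
    simp only [mul_comm _ a, Nat.mul_add_div ha, Nat.div_eq_of_lt u.2, Nat.div_eq_of_lt u'.2] at h2
    exact Fin.ext h2
  refine ⟨fun f => ∑ s, if f = φ s then 1 / t else 0, ⟨fun f => sum_nonneg fun s _ => ?_, ?_,
    fun f hf => ?_⟩, fun e => ?_⟩
  · split_ifs <;> positivity
  · rw [sum_comm]
    simp [ht]
  · obtain ⟨s, -, hs⟩ := exists_ne_zero_of_sum_ne_zero hf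
    obtain rfl : f = φ s := by_contra fun h => hs (if_neg h)
    refine ⟨fun u v h => hψ.1 (Nat.add_lt_add_left h _), fun _ => trivial,
      fun u v h => hψ.2.2 _ _ ?_⟩
    simpa [Fin.ext_iff] using fun e => h.ne (Fin.ext e)
  · have : hit H (fun f => ∑ s, if f = φ s then 1 / t else 0) e =
        (univ.filter fun s => e ∈ Sym2.map (φ s) '' H.edgeSet).card / t := by
      have h1 : ∀ f : Fin a → Fin N, (if e ∈ Sym2.map f '' H.edgeSet then
          ∑ s, if f = φ s then (1 / t : ℝ) else 0 else 0) =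
          ∑ s, if f = φ s then (if e ∈ Sym2.map (φ s) '' H.edgeSet then (1 / t : ℝ) else 0)
            else 0 := fun f => by
        split_ifs with h
        · exact sum_congr rfl fun s _ => if_ctx_congr Iff.rfl
            (fun e' => (if_pos (e' ▸ h)).symm) fun _ => rfl
        · exact (sum_eq_zero fun s _ => ite_eq_right_iff.2 fun e' => if_neg (e' ▸ h)).symm
      simp only [hit, h1]
      rw [sum_comm]
      simp only [sum_ite_eq', mem_univ, if_true]
      rw [← sum_filter, sum_const, nsmul_eq_mul, mul_one_div]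
    rw [this]
    refine ⟨by positivity, ?_⟩
    gcongr
    refine Nat.cast_le_one.2 (card_le_one.2 fun s hs s' hs' => ?_)
    obtain ⟨x, -, hx⟩ := (mem_filter.1 hs).2
    obtain ⟨y, -, hy⟩ := (mem_filter.1 hs').2
    induction x using Sym2.ind with
    | _ u v =>
      induction y using Sym2.ind with
      | _ u' v' =>
        rcases Sym2.eq_iff.1 (hx.trans hy.symm) with h | h <;> exact hφ _ _ _ _ h.1

theorem result (N : ℕ → ℕ) (G : ∀ n, SimpleGraph (Fin (N n)))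
    (hG : ∀ᶠ n in atTop, (G n).edgeSet.Nonempty)
    (hU : ∀ (a : ℕ) (F : SimpleGraph (Fin a)), F.edgeSet.Nonempty →
      Tendsto (fun n => rho F (G n)) atTop (𝓝 (rhoInf F)))
    (a : ℕ) (H : SimpleGraph (Fin a)) :
    ∃ w : ∀ n, (Fin a → Fin (N n)) → ℝ, (∀ᶠ n in atTop, IsLaw H (G n) (w n)) ∧
      Tendsto (fun n => (⨆ e : (G n).edgeSet, hit H (w n) e) -
        (H.edgeSet.ncard : ℝ) / (G n).edgeSet.ncard) atTop (𝓝 0) := by
  classical
  let P : ℕ → ℕ → Prop := fun n t =>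
    ∃ ψ : Fin (t * a + t + 2) → Fin (N n), IsEmb ⊤ (⊤ : (G n).Subgraph) ψ
  let t : ℕ → ℕ := fun n => Nat.findGreatest (P n) n
  have ht : Tendsto t atTop atTop := tendsto_atTop.2 fun T => by
    filter_upwards [eventually_ge_atTop T, hG, (hU _ ⊤ ⟨s(0, 1), by simp⟩).eventually_lt
      tendsto_const_nhds (inf_lt (T * a + T))] with n h1 h2 h3
    exact Nat.le_findGreatest h1 (emb _ _ h2 h3)
  have : ∀ n, ∃ w, t n ≠ 0 → t n ≤ (G n).edgeSet.ncard ∧ IsLaw H (G n) w ∧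
      ∀ e, 0 ≤ hit H w e ∧ hit H w e ≤ 1 / t n := fun n => by
    by_cases h : t n = 0
    · exact ⟨0, fun h' => absurd h h'⟩
    · obtain ⟨ψ, hψ⟩ : P n (t n) := Nat.findGreatest_of_ne_zero rfl h
      obtain ⟨h1, w, h2⟩ := law H (G n) _ h ψ hψ
      exact ⟨w, fun _ => ⟨h1, h2⟩⟩
  choose w hw using this
  have h1 := ht.eventually_ne_atTop 0
  have h2 : ∀ c : ℝ, Tendsto (fun n => c / t n) atTop (𝓝 0) := fun c =>
    (tendsto_const_div_atTop_nhds_zero_nat c).comp ht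
  refine ⟨w, h1.mono fun n h => (hw n h).2.1,
    tendsto_of_tendsto_of_tendsto_of_le_of_le' (h2 (-H.edgeSet.ncard)) (h2 1)
      (h1.mono fun n h => ?_) (h1.mono fun n h => ?_)⟩
  · obtain ⟨b1, -, b2⟩ := hw n h
    have b3 : 0 ≤ ⨆ e : (G n).edgeSet, hit H (w n) e := Real.iSup_nonneg fun e => (b2 e).1
    have b4 : (H.edgeSet.ncard : ℝ) / (G n).edgeSet.ncard ≤ H.edgeSet.ncard / t n := by
      gcongr
    rw [neg_div]
    linarith
  · obtain ⟨-, -, b2⟩ := hw n h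
    have b3 : ⨆ e : (G n).edgeSet, hit H (w n) e ≤ 1 / t n :=
      Real.iSup_le (fun e => (b2 e).2) (by positivity)
    have b4 : 0 ≤ (H.edgeSet.ncard : ℝ) / (G n).edgeSet.ncard := by positivity
    linarith

end Pool.Agent.Results.MP_37b92f_co.Yes
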